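import Pool.Agent.H.MP_bfd36a_an.C

set_option autoImplicit false

namespace Pool.Agent.Results.MP_bfd36a_an.Yes

open Set Filter Topology MeasureTheory Pool.Agent.H.MP_bfd36a_an
open scoped ENNReal symmDiff

variable {X : Type*} [MeasurableSpace X]

/-- Halmos metric -/
noncomputable def rho (μ : Measure X) (A : ℕ → Set X) (S T : Equiv.Perm X) : ℝ≥0∞ :=
  ∑' i, 2⁻¹ ^ (i + 1) * (μ ((S '' A i) ∆ (T '' A i)) + μ ((⇑S⁻¹ '' A i) ∆ (⇑T⁻¹ '' A i)))

/-- weak distance -/
noncomputable def dw (μ : Measure X) (A : ℕ → Set X) (S T : Equiv.Perm X) : ℝ≥0∞ :=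
  ∑' i, ∑' j, 2⁻¹ ^ (i + 1) * 2⁻¹ ^ (j + 1) * edist (μ.real (S '' A i ∩ A j)) (μ.real (T '' A i ∩ A j))

/-- the metric on the mixing automorphisms -/
noncomputable def r (μ : Measure X) (A : ℕ → Set X) (S T : Equiv.Perm X) : ℝ≥0∞ :=
  rho μ A S T + ⨆ (n : ℕ) (_ : 0 < n), dw μ A (S ^ n) (T ^ n)

theorem result {X : Type*} [MeasurableSpace X] [StandardBorelSpace X] (μ : Measure X) [SigmaFinite μ]
    [NullSingletonClass μ] (hμ : μ univ = ∞) (A : ℕ → Set X) (mA : ∀ i, MeasurableSet (A i)) (fA : ∀ i, μ (A i) ≠ ∞)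
    (hA : ∑' i, 2⁻¹ ^ (i + 1) * μ (A i) ≠ ∞) (T S : Equiv.Perm X) (hT : T ∈ Aut μ) (hS : S ∈ Aut μ)
    (mT : Mix μ T) (mS : Mix μ S) (ε : ℝ≥0∞) (hε : 0 < ε) : ∃ R ∈ Aut μ, r μ A S (R⁻¹ * T * R) < ε := by
  obtain ⟨δ, d0, d1⟩ := ENNReal.exists_nnreal_pos_mul_lt (a := 12) (by finiteness) hε.ne'
  have d0 : (0 : ℝ≥0∞) < δ := by simpa
  obtain ⟨K, hK⟩ := ((ENNReal.tendsto_tsum_compl_atTop_zero hA).eventually (ge_mem_nhds d0)).exists
  obtain ⟨R, hR, N, N1, h1, h2⟩ := core hμ hS hT mS mT (K.measurableSet_biUnion fun i _ => mA i)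
    (measure_biUnion_lt_top K.finite_toSet fun i _ => (fA i).lt_top).ne d0.ne'
  refine ⟨R, hR, lt_of_le_of_lt ?_ d1⟩
  have hU := mul_mem (mul_mem (inv_mem hR) hT) hR
  generalize R⁻¹ * T * R = U at *
  obtain ⟨e, he⟩ : ∃ e : ℕ → ℝ≥0∞, ∀ i, e i = if i ∈ K then (δ : ℝ≥0∞) else μ (A i) := ⟨_, fun _ => rfl⟩
  have w : ∑' i : ℕ, (2⁻¹ : ℝ≥0∞) ^ (i + 1) = 1 := by
    rw [ENNReal.tsum_geometric_add_one, ENNReal.one_sub_inv_two, ENNReal.mul_inv_cancel] <;> simp
  have s : ∑' i : ℕ, 2⁻¹ ^ (i + 1) * e i ≤ δ * 2 := by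
    replace hK := (tsum_subtype {i | i ∉ K} fun i => 2⁻¹ ^ (i + 1) * μ (A i)).symm.trans_le hK
    rw [mul_two]
    refine le_trans ?_ (add_le_add ((ENNReal.tsum_mul_right.trans (by rw [w, one_mul])).le) hK)
    rw [← ENNReal.tsum_add]
    exact ENNReal.tsum_le_tsum fun i => by by_cases c : i ∈ K <;> simp [he, c]
  have a : ∀ V ∈ Aut μ, ∀ i, μ (V '' A i) = μ (A i) := fun V c i => by simpa using im c (A i) univ
  have u := fun i (c : i ∈ K) => subset_biUnion_of_mem (u := A) (show i ∈ (K : Set ℕ) from c)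
  have b : ∀ n : ℤ, |n| ≤ N → ∀ i, μ ((⇑(S ^ n) '' A i) ∆ (⇑(U ^ n) '' A i)) ≤ 2 * e i := fun n c i => by
    rw [he]
    split_ifs with d
    · grw [sd (zpow_mem hS n) (zpow_mem hU n) (u i d)]
      exact mul_le_mul_right (h1 n c) _
    · grw [symmDiff_subset_union, measure_union_le, a _ (zpow_mem hS n), a _ (zpow_mem hU n), two_mul]
  rw [show (δ * 12 : ℝ≥0∞) = δ * 2 * 4 + (δ * 2 + δ * 2) by ring]
  refine add_le_add (le_trans (ENNReal.tsum_le_tsum fun i => ?_) (ENNReal.tsum_mul_right.trans_le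
    (mul_le_mul_left s _))) (iSup₂_le fun n n0 => le_trans (ENNReal.tsum_le_tsum fun i => (ENNReal.tsum_le_tsum
      (g := fun j => 2⁻¹ ^ (i + 1) * e i * 2⁻¹ ^ (j + 1) + 2⁻¹ ^ (i + 1) * (2⁻¹ ^ (j + 1) * e j)) fun j => ?_)) ?_)
  · have b1 := b 1 (by simpa) i
    have b2 := b (-1) (by simpa) i
    simp only [zpow_neg, zpow_one] at b1 b2
    grw [b1, b2]
    exact le_of_eq (by ring)
  · refine le_of_le_of_eq (mul_le_mul_right (c := e i + e j) ?_ _) (by ring)
    have f : ∀ V : Equiv.Perm X, μ (V '' A i ∩ A j) ≤ μ (A j) := fun V => measure_mono inter_subset_right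
    have g : ∀ V ∈ Aut μ, μ (V '' A i ∩ A j) ≤ μ (A i) := fun V c => a V c i ▸ measure_mono inter_subset_left
    have k := fun c => ed (c := c) (ne_top_of_le_ne_top (fA j) (f (S ^ n))) (ne_top_of_le_ne_top (fA j) (f (U ^ n)))
    rw [he, he]
    split_ifs with c d d
    · rcases le_total N n with l | l
      · have := h2 n (by simpa)
        rw [zpow_natCast, zpow_natCast] at this
        refine k _ (le_add_left ?_) (le_add_left ?_)
        · rw [im (pow_mem hS n)]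
          exact le_add_left ((measure_mono (by gcongr <;> exact u _ ‹_›)).trans this.1)
        · rw [im (pow_mem hU n)]
          exact (measure_mono (by gcongr <;> exact u _ ‹_›)).trans this.2
      · have := b n (by simpa) i
        rw [zpow_natCast, zpow_natCast, he, if_pos c, two_mul] at this
        refine k _ (le_trans ?_ (add_le_add_right this _)) (le_trans ?_ (add_le_add_right this _)) <;>
          refine (measure_mono fun x => ?_).trans (measure_union_le _ _) <;>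
            simp only [mem_inter_iff, mem_union, mem_symmDiff] <;> tauto
    · exact k _ (le_add_left (le_add_left (f _))) (le_add_left (le_add_left (f _)))
    all_goals exact k _ (le_add_left (le_add_right (g _ (pow_mem hS n)))) (le_add_left (le_add_right (g _ (pow_mem hU n))))
  · simp only [ENNReal.tsum_add, ENNReal.tsum_mul_left, ENNReal.tsum_mul_right, w, mul_one, one_mul]
    exact add_le_add s s

end Pool.Agent.Results.MP_bfd36a_an.Yes
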